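import Pool.Agent.H121R3.Cover

/-!
# Entire curves in abelian covers of products of projective lines

The variety `X` is the abelian cover `z_j ^ n_j = c_j ∏ lin (pt i a) (p_i, q_i) ^ e_jia` of a product
of projective lines with homogeneous coordinates `[p_i : q_i]`, `i : ι`, ramified over the fibres
over the points `pt i a`, `a ∈ S i`, with the fibres over the points `a ∈ O i` removed.
An entire curve in `X` not contained in the fibres over the points of `S i` is constant as soon as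
the weight condition `hcond`, which only involves the exponents, holds.
-/

namespace Pool.Agent.Results.MP_64ff02_ag.AbelianCovers

open H121R3

/-- The linear form vanishing at the point `[a.1 : a.2]` of the projective line. -/
def lin (a : ℂ × ℂ) (u v : ℂ) : ℂ := a.2 * u - a.1 * v

/-- An entire curve in the cover: holomorphic maps `[p i : q i]` to the projective line, given by
entire functions without common zeros, and entire functions `f j` which satisfy the equations of the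
cover, such that `[p i : q i]` omits the points `a ∈ O i`. -/
structure EntireCurve {ι κ τ : Type} [Fintype ι] (S O : ι → Finset τ) (pt : ι → τ → ℂ × ℂ)
    (n : κ → ℕ) (c : κ → ℂ) (e : κ → ι → τ → ℕ) (p q : ι → ℂ → ℂ) (f : κ → ℂ → ℂ) : Prop where
  hp : ∀ i, Differentiable ℂ (p i)
  hq : ∀ i, Differentiable ℂ (q i)
  hpq : ∀ i z, p i z ≠ 0 ∨ q i z ≠ 0
  hf : ∀ j, Differentiable ℂ (f j)
  eqn : ∀ j z, f j z ^ n j = c j * ∏ i, ∏ a ∈ S i, lin (pt i a) (p i z) (q i z) ^ e j i a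
  omit_pts : ∀ i, ∀ a ∈ O i, ∀ z, lin (pt i a) (p i z) (q i z) ≠ 0

theorem result (ι κ τ : Type) [Fintype ι] (S O : ι → Finset τ) (pt : ι → τ → ℂ × ℂ)
    (hpt0 : ∀ i, ∀ a ∈ S i, pt i a ≠ 0)
    (hpt : ∀ i, ∀ a ∈ S i, ∀ b ∈ S i, a ≠ b → (pt i a).1 * (pt i b).2 ≠ (pt i a).2 * (pt i b).1)
    (n : κ → ℕ) (c : κ → ℂ) (hc : ∀ j, c j ≠ 0) (e : κ → ι → τ → ℕ)
    (w : ι → τ → ℝ) (hw : ∀ i, ∀ a ∈ S i, 0 < w i a ∧ w i a < 1)
    (hsum : ∀ i, 2 < ∑ a ∈ S i, w i a) (lam : ι → ℝ) (hlam : ∀ i, 0 < lam i)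
    (hcond : ∀ I : Finset ι, I.Nonempty → ∀ (a : ι → τ) (m : ι → ℕ),
      (∀ i ∈ I, a i ∈ S i ∧ a i ∉ O i ∧ 1 ≤ m i) →
      (∀ j, n j ∣ ∑ i ∈ I, e j i (a i) * m i) →
      0 < ∑ i ∈ I, lam i * (m i * (1 - w i (a i)) - 1))
    (p q : ι → ℂ → ℂ) (f : κ → ℂ → ℂ) (hcurve : EntireCurve S O pt n c e p q f) :
    (∃ i, ∃ a ∈ S i, ∀ z, lin (pt i a) (p i z) (q i z) = 0) ∨
      (∀ i, ∃ v : ℂ × ℂ, v ≠ 0 ∧ ∀ z, lin v (p i z) (q i z) = 0) := by
  classical
  by_cases hexc : ∃ i, ∃ a ∈ S i, ∀ z, lin (pt i a) (p i z) (q i z) = 0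
  · exact Or.inl hexc
  right
  push Not at hexc
  set r : ι → τ → ℝ := fun i a => Real.sqrt (‖(pt i a).1‖ ^ 2 + ‖(pt i a).2‖ ^ 2) with hr
  have hr0 : ∀ i, ∀ a ∈ S i, 0 < r i a := by
    intro i a ha
    refine Real.sqrt_pos.2 ?_
    by_contra hcon
    apply hpt0 i a ha
    have h1 : ‖(pt i a).1‖ ^ 2 = 0 := by nlinarith [sq_nonneg ‖(pt i a).1‖, sq_nonneg ‖(pt i a).2‖]
    have h2 : ‖(pt i a).2‖ ^ 2 = 0 := by nlinarith [sq_nonneg ‖(pt i a).1‖, sq_nonneg ‖(pt i a).2‖]
    exact Prod.ext (by simpa using h1) (by simpa using h2)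
  have hr2 : ∀ i a, r i a ^ 2 = ‖(pt i a).1‖ ^ 2 + ‖(pt i a).2‖ ^ 2 := fun i a =>
    Real.sq_sqrt (by positivity)
  set pt' : ι → τ → ℂ × ℂ := fun i a =>
    (((r i a)⁻¹ : ℝ) * (pt i a).1, ((r i a)⁻¹ : ℝ) * (pt i a).2) with hpt'
  have hrc : ∀ i, ∀ a ∈ S i, ((r i a : ℝ) : ℂ) ≠ 0 := fun i a ha => by
    exact_mod_cast (hr0 i a ha).ne'
  have hell : ∀ i, ∀ a ∈ S i, ∀ z, lin (pt i a) (p i z) (q i z) =
      (r i a : ℂ) * ell (p i) (q i) (pt' i a) z := by
    intro i a ha z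
    have := hrc i a ha
    simp only [hpt', lin, ell]
    push_cast
    field_simp
  have hW := cover_unit S (fun i => (O i).filter (· ∈ S i)) pt' (fun i a ha => by
      have h := hr0 i a ha
      simp only [hpt', norm_mul, mul_pow, Complex.norm_real, Real.norm_eq_abs, sq_abs]
      rw [← mul_add, ← hr2]
      field_simp) (fun i a ha b hb hab h0 => by
      apply hpt i a ha b hb hab
      have h1 := hrc i a ha
      have h2 := hrc i b hb
      simp only [hpt'] at h0
      push_cast at h0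
      field_simp at h0
      linear_combination h0)
    n (fun j => c j * ∏ i, ∏ a ∈ S i, (r i a : ℂ) ^ e j i a) (fun j =>
      mul_ne_zero (hc j) (Finset.prod_ne_zero_iff.2 fun i _ => Finset.prod_ne_zero_iff.2
        fun a ha => pow_ne_zero _ (hrc i a ha))) e w (fun i a ha => (hw i a ha).1)
    (fun i a ha => (hw i a ha).2) hsum lam hlam (fun I hI a m h1 h2 =>
      hcond I hI a m (fun i hi => ⟨(h1 i hi).1, fun ho => (h1 i hi).2.1
        (Finset.mem_filter.2 ⟨ho, (h1 i hi).1⟩), (h1 i hi).2.2⟩) h2)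
    p q hcurve.hp hcurve.hq hcurve.hpq f hcurve.hf (fun j z => by
      rw [hcurve.eqn j z, mul_assoc]
      congr 1
      rw [← Finset.prod_mul_distrib]
      refine Finset.prod_congr rfl fun i _ => ?_
      rw [← Finset.prod_mul_distrib]
      refine Finset.prod_congr rfl fun a ha => ?_
      rw [hell i a ha, mul_pow])
    (fun i a ha z h0 => by
      obtain ⟨h1, h2⟩ := Finset.mem_filter.1 ha
      exact hcurve.omit_pts i a h1 z (by rw [hell i a h2, h0, mul_zero]))
    (fun i a ha => by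
      obtain ⟨z, hz⟩ := hexc i a ha
      exact ⟨z, fun h0 => hz (by rw [hell i a ha, h0, mul_zero])⟩)
  intro i
  refine ⟨(p i 0, q i 0), fun h0 => ?_, fun z => ?_⟩
  · rcases hcurve.hpq i 0 with h | h
    · exact h (congrArg Prod.fst h0)
    · exact h (congrArg Prod.snd h0)
  · have := const_of_WW (hcurve.hp i) (hcurve.hq i) (hcurve.hpq i) (hW i) 0 z
    simpa [lin] using this

end Pool.Agent.Results.MP_64ff02_ag.AbelianCovers
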