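import Mathlib
import Pool.Agent.H159R3.Exp.SpAff

/-!
In every affine variety the entire curves of exponential type and the images of the multiplicative
group have the same Zariski closure.
-/

namespace Pool.Agent.Results.MP_64ff02_ag.ExponentialCurves

open MvPolynomial Pool.Agent.H159R3.ExpAff

theorem result {n : ℕ} {ι : Type} (F : ι → MvPolynomial (Fin n) ℂ) :
    zcl F (expPoints F) = zcl F (gmPoints F) :=
  main F

end Pool.Agent.Results.MP_64ff02_ag.ExponentialCurves
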