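import Mathlib
import Pool.Agent.H159R3.GGL.LogSpecial

/-!
Entire curves and morphisms from the multiplicative group for quasi-projective varieties given, up to
units, by few monomials that are high powers.
-/

namespace Pool.Agent.Results.MP_64ff02_ag.PowerSparseVarieties

open MvPolynomial Pool.Agent.H159R3.GGLLog

theorem result {n : ℕ} {ι : Type} (U : Set (Fin (n + 1))) (F : ι → MvPolynomial (Fin (n + 1)) ℂ)
    (hC : ∀ i, PowerSparse U (F i)) :
    SpH U F = SpT U F ∧
      (Finite ι → (∀ i, ∃ d, (F i).IsHomogeneous d) → Irred U F →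
        (PseudoBrody U F ↔ ∀ b : Fin (n + 1) → ℤ, Preserves U b F → ActsTrivially U b F)) :=
  ⟨special U F hC, fun _ hF hirr => main U F hF hC hirr⟩

end Pool.Agent.Results.MP_64ff02_ag.PowerSparseVarieties
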